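import Pool.Agent.Lib.PRSym.FrameSpace
import Pool.Agent.Lib.MP_611141_gt.FrameField
import Pool.Agent.Lib.MP_611141_gt.FrameSpec

/-!
The space of frames of a pseudo-Riemannian manifold: construction of a `FrameSpec`.
-/

set_option autoImplicit false

open Set Filter Topology Metric
open scoped NNReal ContDiff Manifold

namespace Pool.Agent.Lib.PRSym

open MP_611141_gt

section general

variable {E M : Type*} [NormedAddCommGroup E] [NormedSpace ℝ E] [FiniteDimensional ℝ E]
  [TopologicalSpace M] [ChartedSpace E M] [IsManifold 𝓘(ℝ, E) ∞ M]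

/-- The Levi-Civita connection of `g` as a `Conn`. -/
noncomputable def connOf (g : PseudoMetric E M) : Conn (atlas E M) E M where
  φ i := i.1
  pref x := ⟨chartAt E x, chart_mem_atlas E x⟩
  mem_pref x := mem_chart_source E x
  smooth i j := fun _ hy => (contDiffAt_transition i.2 j.2 hy).contDiffWithinAt
  Γ i := chrCLM (g.G i.1)
  smoothΓ i := fun _ hy => (g.contDiffAt_chrCLM i.2 hy).contDiffWithinAt
  transΓ i j := by
    intro y hy v w
    simp only [chrCLM_apply]
    exact g.connRel i.2 j.2 y hy v w

end general

section spec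

variable {E M : Type} [NormedAddCommGroup E] [NormedSpace ℝ E] [FiniteDimensional ℝ E]
  [TopologicalSpace M] [ChartedSpace E M] [IsManifold 𝓘(ℝ, E) ∞ M]

/-- The type of frames of `(M, g)`. -/
def Fr (g : PseudoMetric E M) : Type := (connOf g).FrameSpace E

noncomputable instance (g : PseudoMetric E M) : TopologicalSpace (Fr g) :=
  inferInstanceAs (TopologicalSpace ((connOf g).FrameSpace E))

instance (g : PseudoMetric E M) [T2Space M] : T2Space (Fr g) :=
  inferInstanceAs (T2Space ((connOf g).FrameSpace E))

/-- The space of frames of `(M, g)` satisfies the specification. -/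
noncomputable def frameSpec (g : PseudoMetric E M) : FrameSpec g (Fr g) where
  S := (connOf g).parSpace E
  π := (connOf g).proj
  π_cont := (connOf g).continuous_proj
  src j p := Iff.rfl
  tgt j y := by
    change y ∈ (j.1.target ×ˢ (univ : Set (E →L[ℝ] E))) ↔ _
    simp
  fst j p _ := rfl
  snd i j p hi hj := by
    change ((connOf g).D j p.1).comp p.2 = (fderiv ℝ (j.1 ∘ i.1.symm) (i.1 p.1)).comp
      (((connOf g).D i p.1).comp p.2)
    rw [← ContinuousLinearMap.comp_assoc]
    congr 1
    exact ((connOf g).A_comp_D (i := i) (j := j) hi hj).symm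
  Y_fst j y w B _ := by
    change ((connOf g).Y j y (w, B)).1 = y.2 w
    rw [Conn.Y_apply]
    rfl
  Y_snd j y w B u _ := by
    change ((connOf g).Y j y (w, B)).2 u = _
    rw [Conn.Y_apply]
    change (-((chrCLM (g.G j.1) y.1 (y.2 w)).comp y.2) + y.2.comp B) u = _
    simp only [add_apply, neg_apply, ContinuousLinearMap.comp_apply, chrCLM_apply]
    unfold PseudoMetric.Γ
    abel

end spec

end Pool.Agent.Lib.PRSym
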