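import Mathlib

/-!
Vectors of a given causal type span the space, for an indefinite form.
-/

set_option autoImplicit false

open Set Filter Topology Metric

namespace Pool.Agent.Lib.PRSym

variable {E : Type*} [NormedAddCommGroup E] [NormedSpace ℝ E]

theorem span_open {s : Set E} (hs : IsOpen s) (hne : s.Nonempty) :
    Submodule.span ℝ s = ⊤ := by
  apply Submodule.eq_top_of_nonempty_interior' (R := ℝ)
  obtain ⟨x, hx⟩ := hne
  exact ⟨x, interior_maximal Submodule.subset_span hs hx⟩

/-- For an indefinite form, the nonzero vectors of each causal type span the space. -/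
theorem span_causal (η : E →L[ℝ] E →L[ℝ] ℝ) (hsymm : ∀ u v, η u v = η v u)
    (hneg : ∃ u, η u u < 0) (hpos : ∃ u, 0 < η u u) (σ : SignType) :
    Submodule.span ℝ {v | v ≠ 0 ∧ SignType.sign (η v v) = σ} = ⊤ := by
  have hcont : Continuous fun v => η v v := by fun_prop
  have htime : Submodule.span ℝ {v | v ≠ 0 ∧ SignType.sign (η v v) = -1} = ⊤ := by
    have h1 : Submodule.span ℝ {v | η v v < 0} = ⊤ :=
      span_open (isOpen_lt hcont continuous_const) hneg
    rw [eq_top_iff, ← h1]
    apply Submodule.span_mono
    intro v hv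
    have hv' : η v v < 0 := hv
    refine ⟨?_, sign_neg hv'⟩
    rintro rfl
    simp at hv'
  have hspace : Submodule.span ℝ {v | v ≠ 0 ∧ SignType.sign (η v v) = 1} = ⊤ := by
    have h1 : Submodule.span ℝ {v | 0 < η v v} = ⊤ :=
      span_open (isOpen_lt continuous_const hcont) hpos
    rw [eq_top_iff, ← h1]
    apply Submodule.span_mono
    intro v hv
    have hv' : 0 < η v v := hv
    refine ⟨?_, sign_pos hv'⟩
    rintro rfl
    simp at hv'
  cases σ with
  | neg => exact htime
  | pos => exact hspace
  | zero =>
    change Submodule.span ℝ {v | v ≠ 0 ∧ SignType.sign (η v v) = 0} = ⊤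
    rw [eq_top_iff, ← htime, Submodule.span_le]
    rintro v ⟨-, hv⟩
    have hv : η v v < 0 := sign_eq_neg_one_iff.mp hv
    obtain ⟨w, hw⟩ := hpos
    set a := η w w with ha
    set b := η v w with hb
    set c := η v v with hc
    have hdisc : 0 < b ^ 2 - a * c := by nlinarith [sq_nonneg b, mul_pos hw (neg_pos.2 hv)]
    set d := Real.sqrt (b ^ 2 - a * c) with hd
    have hd0 : 0 < d := Real.sqrt_pos.2 hdisc
    have hd2 : d ^ 2 = b ^ 2 - a * c := Real.sq_sqrt hdisc.le
    have hquad : ∀ s : ℝ, η (v + s • w) (v + s • w) = c + 2 * s * b + s ^ 2 * a := by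
      intro s
      simp only [map_add, add_apply, map_smul, smul_apply, smul_eq_mul, hsymm w v,
        ← ha, ← hb, ← hc]
      ring
    have hne : ∀ s : ℝ, v + s • w ≠ 0 := by
      intro s h0
      have h1 : v = -(s • w) := eq_neg_of_add_eq_zero_left h0
      have h2 : c = s ^ 2 * a := by
        rw [hc, h1]
        simp only [map_neg, neg_apply, map_smul, smul_apply, smul_eq_mul, ← ha]
        ring
      nlinarith [sq_nonneg s]
    have hnull : ∀ s : ℝ, c + 2 * s * b + s ^ 2 * a = 0 →
        v + s • w ∈ Submodule.span ℝ {v | v ≠ 0 ∧ SignType.sign (η v v) = 0} := by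
      intro s hs
      apply Submodule.subset_span
      refine ⟨hne s, ?_⟩
      rw [hquad, hs, sign_zero]
    have ha0 : a ≠ 0 := hw.ne'
    have h1 := hnull ((-b + d) / a) (by field_simp; nlinarith)
    have h2 := hnull ((-b - d) / a) (by field_simp; nlinarith)
    have h3 : w ∈ Submodule.span ℝ {v | v ≠ 0 ∧ SignType.sign (η v v) = 0} := by
      have h4 := Submodule.smul_mem _ (a / (2 * d)) (Submodule.sub_mem _ h1 h2)
      have h5 : (a / (2 * d)) • (v + ((-b + d) / a) • w - (v + ((-b - d) / a) • w)) = w := by
        rw [add_sub_add_left_eq_sub, ← sub_smul, smul_smul]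
        have : a / (2 * d) * ((-b + d) / a - (-b - d) / a) = 1 := by
          field_simp
          ring
        rw [this, one_smul]
      rwa [h5] at h4
    have h6 := Submodule.sub_mem _ h1 (Submodule.smul_mem _ ((-b + d) / a) h3)
    simpa using h6

end Pool.Agent.Lib.PRSym
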