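import Pool.Agent.Lib.PRSym.Frame

/-!
Existence, uniqueness and maximal extension of integral curves in the frame space, and
parallel frames along geodesics.
-/

open Set Filter Topology Metric
open scoped NNReal ContDiff

namespace Pool.Agent.Lib.PRSym

namespace Conn

variable {ι E M : Type*} [NormedAddCommGroup E] [NormedSpace ℝ E] [TopologicalSpace M]
  (C : Conn ι E M) {V : Type*} [NormedAddCommGroup V] [NormedSpace ℝ V]

theorem contDiffAt_Zv {i : ι} {z : E × (V →L[ℝ] E)} (hz : z.1 ∈ (C.φ i).target) (a : V)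
    (ϖ : V →L[ℝ] V) : ContDiffAt ℝ ∞ (fun z => C.Zv i z a ϖ) z := by
  have h1 : ContDiffAt ℝ ∞ (fun z : E × (V →L[ℝ] E) => z.1) z := contDiffAt_fst
  have h2 : ContDiffAt ℝ ∞ (fun z : E × (V →L[ℝ] E) => z.2) z := contDiffAt_snd
  have h3 : ContDiffAt ℝ ∞ (fun z : E × (V →L[ℝ] E) => z.2 a) z := h2.clm_apply contDiffAt_const
  have h4 : ContDiffAt ℝ ∞ (fun z : E × (V →L[ℝ] E) => C.Γ i z.1) z :=
    ContDiffAt.comp z (C.contDiffAt_Γ hz) h1
  have h5 := h4.clm_apply h3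
  exact h3.prodMk ((h5.clm_comp h2).neg.add (h2.clm_comp contDiffAt_const))

/-- `u` is an integral curve on `s` of the horizontal field `ξ`. -/
def IC (u : ℝ → M × (V →L[ℝ] E)) (ξ : V) (s : Set ℝ) : Prop := ∀ t ∈ s, C.Tan u ξ 0 t

theorem IC.mono {u : ℝ → M × (V →L[ℝ] E)} {ξ : V} {s s' : Set ℝ} (h : C.IC u ξ s) (hs : s' ⊆ s) :
    C.IC u ξ s' := fun t ht => h t (hs ht)

theorem isOpen_target_prod (i : ι) : IsOpen ((C.φ i).target ×ˢ (univ : Set (V →L[ℝ] E))) :=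
  (C.φ i).open_target.prod isOpen_univ

/-- Uniform local existence near a given frame. -/
theorem exists_local [CompleteSpace E] (p₀ : M × (V →L[ℝ] E)) {i : ι}
    (hi : p₀.1 ∈ (C.φ i).source) (ξ : V) {ρ : ℝ} (hρ : 0 < ρ) :
    ∃ ε > (0 : ℝ), ∃ r > (0 : ℝ), ∀ p : M × (V →L[ℝ] E), p.1 ∈ (C.φ i).source →
      C.loc i p ∈ closedBall (C.loc i p₀) r → ∀ t₀ : ℝ, ∃ u : ℝ → M × (V →L[ℝ] E), u t₀ = p ∧
        ∀ t ∈ Ioo (t₀ - ε) (t₀ + ε), C.Tan u ξ 0 t ∧ (u t).1 ∈ (C.φ i).source ∧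
          C.loc i (u t) ∈ ball (C.loc i p₀) ρ := by
  have hmem : (C.loc i p₀).1 ∈ (C.φ i).target := (C.φ i).map_source hi
  obtain ⟨ρ', hρ', hsub⟩ := Metric.isOpen_iff.mp (C.isOpen_target_prod (V := V) i) (C.loc i p₀)
    ⟨hmem, mem_univ _⟩
  have hlip : LipAt (fun z : E × (V →L[ℝ] E) => C.Zv i z ξ 0) (C.loc i p₀) :=
    lipAt_of_contDiffAt ((C.contDiffAt_Zv hmem ξ 0).of_le (by simp))
  obtain ⟨ε, hε, r, hr, α, hα, -⟩ := localFlow hlip (lt_min hρ hρ')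
  refine ⟨ε, hε, r, hr, fun p hp hpr t₀ => ⟨fun t => C.unloc i (α (C.loc i p) (t - t₀)), ?_, ?_⟩⟩
  · simp only [sub_self]
    rw [(hα _ hpr).1, C.unloc_loc hp]
  · intro t ht
    have hsrc : ∀ s ∈ Ioo (t₀ - ε) (t₀ + ε), (α (C.loc i p) (s - t₀)).1 ∈ (C.φ i).target ∧
        α (C.loc i p) (s - t₀) ∈ ball (C.loc i p₀) ρ := by
      intro s hs
      have h1 := ((hα _ hpr).2 (s - t₀) ⟨by linarith [hs.1], by linarith [hs.2]⟩).2
      exact ⟨(hsub (ball_subset_ball (min_le_right _ _) h1)).1,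
        ball_subset_ball (min_le_left _ _) h1⟩
    have hloc : ∀ s ∈ Ioo (t₀ - ε) (t₀ + ε),
        C.loc i (C.unloc i (α (C.loc i p) (s - t₀))) = α (C.loc i p) (s - t₀) :=
      fun s hs => C.loc_unloc (hsrc s hs).1
    have hnhds : ∀ᶠ s in 𝓝 t, s ∈ Ioo (t₀ - ε) (t₀ + ε) := Ioo_mem_nhds ht.1 ht.2
    refine ⟨?_, ?_, ?_⟩
    · refine C.tan_of_chart' (i := i) ?_ ?_
      · filter_upwards [hnhds] with s hs
        exact (C.φ i).map_target (hsrc s hs).1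
      · have h1 := ((hα _ hpr).2 (t - t₀) ⟨by linarith [ht.1], by linarith [ht.2]⟩).1
        have h2 : HasDerivAt (fun s => α (C.loc i p) (s - t₀))
            (C.Zv i (α (C.loc i p) (t - t₀)) ξ 0) t := h1.comp_sub_const t t₀
        rw [hloc t ht]
        refine h2.congr_of_eventuallyEq ?_
        filter_upwards [hnhds] with s hs
        exact hloc s hs
    · exact (C.φ i).map_target (hsrc t ht).1
    · rw [hloc t ht]
      exact (hsrc t ht).2

theorem exists_local₀ [CompleteSpace E] (p : M × (V →L[ℝ] E)) (ξ : V) (t₀ : ℝ) :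
    ∃ ε > (0 : ℝ), ∃ u : ℝ → M × (V →L[ℝ] E), u t₀ = p ∧ C.IC u ξ (Ioo (t₀ - ε) (t₀ + ε)) := by
  obtain ⟨ε, hε, r, hr, h⟩ := C.exists_local p (C.mem_pref p.1) ξ one_pos
  obtain ⟨u, hu, hu'⟩ := h p (C.mem_pref p.1) (mem_closedBall_self hr.le) t₀
  exact ⟨ε, hε, u, hu, fun t ht => (hu' t ht).1⟩

theorem eq_of_frequently [T2Space M] {u v : ℝ → M × (V →L[ℝ] E)} {a b : V} {ϖ ϖ' : V →L[ℝ] V}
    {t : ℝ} (hu : C.Tan u a ϖ t) (hv : C.Tan v b ϖ' t) (h : ∃ᶠ s in 𝓝 t, u s = v s) :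
    u t = v t := by
  have h1 : (u t).1 = (v t).1 := by
    by_contra hne
    have h2 := (hu.1.ne_iff_eventually_ne hv.1).1 hne
    exact h (h2.mono fun s hs h3 => hs (by rw [h3]))
  have hi := C.mem_pref (u t).1
  have hi' : (v t).1 ∈ (C.φ (C.pref (u t).1)).source := by rw [← h1]; exact hi
  refine C.loc_injOn hi hi' ?_
  by_contra hne
  have h2 := ((hu.2 _ hi).continuousAt.ne_iff_eventually_ne (hv.2 _ hi').continuousAt).1 hne
  exact h (h2.mono fun s hs h3 => hs (by rw [h3]))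

theorem eventually_eq_of_eq {u v : ℝ → M × (V →L[ℝ] E)} {ξ : V} {t : ℝ}
    (hu : ∀ᶠ s in 𝓝 t, C.Tan u ξ 0 s) (hv : ∀ᶠ s in 𝓝 t, C.Tan v ξ 0 s) (h : u t = v t) :
    u =ᶠ[𝓝 t] v := by
  set i := C.pref (u t).1 with hi_def
  have hi : (u t).1 ∈ (C.φ i).source := C.mem_pref (u t).1
  have hi' : (v t).1 ∈ (C.φ i).source := by rw [← h]; exact hi
  have hsu : ∀ᶠ s in 𝓝 t, (u s).1 ∈ (C.φ i).source :=
    hu.self_of_nhds.1.eventually ((C.φ i).open_source.mem_nhds hi)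
  have hsv : ∀ᶠ s in 𝓝 t, (v s).1 ∈ (C.φ i).source :=
    hv.self_of_nhds.1.eventually ((C.φ i).open_source.mem_nhds hi')
  have hmem : (C.loc i (u t)).1 ∈ (C.φ i).target := (C.φ i).map_source hi
  obtain ⟨K, S, hS, hlip⟩ : LipAt (fun z : E × (V →L[ℝ] E) => C.Zv i z ξ 0) (C.loc i (u t)) :=
    lipAt_of_contDiffAt ((C.contDiffAt_Zv hmem ξ 0).of_le (by simp))
  have hcu : ∀ᶠ s in 𝓝 t, C.loc i (u s) ∈ S :=
    ((hu.self_of_nhds).2 i hi).continuousAt.eventually hS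
  have hcv : ∀ᶠ s in 𝓝 t, C.loc i (v s) ∈ S := by
    have := ((hv.self_of_nhds).2 i hi').continuousAt
    rw [h] at hS
    exact this.eventually hS
  have key := ODE_solution_unique_of_eventually (v := fun _ z => C.Zv i z ξ 0) (s := fun _ => S)
    (K := K) (f := fun s => C.loc i (u s)) (g := fun s => C.loc i (v s)) (t₀ := t)
    (Eventually.of_forall fun _ => hlip) ?_ ?_ (by simp only [h])
  · filter_upwards [key, hsu, hsv] with s hs h1 h2
    exact C.loc_injOn h1 h2 hs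
  · filter_upwards [hu, hsu, hcu] with s h1 h2 h3
    exact ⟨h1.2 i h2, h3⟩
  · filter_upwards [hv, hsv, hcv] with s h1 h2 h3
    exact ⟨h1.2 i h2, h3⟩

/-- Uniqueness of integral curves. -/
theorem IC.eqOn [T2Space M] {u v : ℝ → M × (V →L[ℝ] E)} {ξ : V} {s : Set ℝ}
    (hu : C.IC u ξ s) (hv : C.IC v ξ s) (hs : IsOpen s) (hoc : s.OrdConnected) {t₀ : ℝ}
    (ht₀ : t₀ ∈ s) (h : u t₀ = v t₀) : EqOn u v s := by
  intro t ht
  have hpre : IsPreconnected s := hoc.isPreconnected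
  refine hpre.induction₂' (fun a b => u a = v a → u b = v b) ?_ ?_ ht₀ ht h
  · intro x hx
    have hx' : ∀ᶠ y in 𝓝 x, y ∈ s := hs.mem_nhds hx
    have h1 : ∀ᶠ y in 𝓝 x, (u x = v x → u y = v y) ∧ (u y = v y → u x = v x) := by
      by_cases hxx : u x = v x
      · have := C.eventually_eq_of_eq (hx'.mono fun y hy => hu y hy) (hx'.mono fun y hy => hv y hy)
          hxx
        filter_upwards [this] with y hy
        exact ⟨fun _ => hy, fun _ => hxx⟩
      · have h2 : ¬ ∃ᶠ y in 𝓝 x, u y = v y := fun h3 =>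
          hxx (C.eq_of_frequently (hu x hx) (hv x hx) h3)
        rw [not_frequently] at h2
        filter_upwards [h2] with y hy
        exact ⟨fun h3 => absurd h3 hxx, fun h3 => absurd h3 hy⟩
    exact h1.filter_mono nhdsWithin_le_nhds
  · intro a b c _ _ _ hab hbc hac
    exact hbc (hab hac)

end Conn

end Pool.Agent.Lib.PRSym
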