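import Pool.Agent.Lib.PRSym.Variation0

/-!
Frame curves of a linear connection on a smooth manifold given by a smooth family of charts.

`V`-frames at `x` are linear maps `V → T_x M`, the tangent space being identified with `E` through
a preferred chart at `x`. For `V = ℝ` these are tangent vectors.
-/

open Set Filter Topology Metric
open scoped NNReal ContDiff

namespace Pool.Agent.Lib.PRSym

/-- A smooth family of charts of `M`, together with a linear connection given by its Christoffel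
symbols in the charts. -/
structure Conn (ι E M : Type*) [NormedAddCommGroup E] [NormedSpace ℝ E] [TopologicalSpace M] where
  /-- the charts -/
  φ : ι → OpenPartialHomeomorph M E
  /-- the preferred chart at a point -/
  pref : M → ι
  mem_pref : ∀ x, x ∈ (φ (pref x)).source
  smooth : ∀ i j, ContDiffOn ℝ ∞ (fun y => φ j ((φ i).symm y))
    ((φ i).target ∩ (φ i).symm ⁻¹' (φ j).source)
  /-- the Christoffel symbols -/
  Γ : ι → E → E →L[ℝ] E →L[ℝ] E
  smoothΓ : ∀ i, ContDiffOn ℝ ∞ (Γ i) (φ i).target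
  transΓ : ∀ i j, ∀ y ∈ (φ i).target ∩ (φ i).symm ⁻¹' (φ j).source, ∀ v w,
    Γ j (φ j ((φ i).symm y)) (fderiv ℝ (fun y => φ j ((φ i).symm y)) y v)
      (fderiv ℝ (fun y => φ j ((φ i).symm y)) y w) =
    fderiv ℝ (fun y => φ j ((φ i).symm y)) y (Γ i y v w) -
      fderiv ℝ (fderiv ℝ (fun y => φ j ((φ i).symm y))) y v w

namespace Conn

variable {ι E M : Type*} [NormedAddCommGroup E] [NormedSpace ℝ E] [TopologicalSpace M]
  (C : Conn ι E M)

/-- chart transition -/
def τ (i j : ι) (y : E) : E := C.φ j ((C.φ i).symm y)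

/-- domain of the chart transition -/
def ov (i j : ι) : Set E := (C.φ i).target ∩ (C.φ i).symm ⁻¹' (C.φ j).source

theorem isOpen_ov (i j : ι) : IsOpen (C.ov i j) :=
  (C.φ i).isOpen_inter_preimage_symm (C.φ j).open_source

theorem contDiffOn_τ (i j : ι) : ContDiffOn ℝ ∞ (C.τ i j) (C.ov i j) := C.smooth i j

theorem contDiffAt_τ {i j : ι} {y : E} (hy : y ∈ C.ov i j) : ContDiffAt ℝ ∞ (C.τ i j) y :=
  (C.contDiffOn_τ i j).contDiffAt ((C.isOpen_ov i j).mem_nhds hy)

theorem hasFDerivAt_τ {i j : ι} {y : E} (hy : y ∈ C.ov i j) :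
    HasFDerivAt (C.τ i j) (fderiv ℝ (C.τ i j) y) y :=
  ((C.contDiffAt_τ hy).differentiableAt (by simp)).hasFDerivAt

theorem contDiffAt_fderiv_τ {i j : ι} {y : E} (hy : y ∈ C.ov i j) :
    ContDiffAt ℝ ∞ (fderiv ℝ (C.τ i j)) y :=
  (C.contDiffAt_τ hy).fderiv_right (m := ∞) (by simp)

theorem hasFDerivAt_fderiv_τ {i j : ι} {y : E} (hy : y ∈ C.ov i j) :
    HasFDerivAt (fderiv ℝ (C.τ i j)) (fderiv ℝ (fderiv ℝ (C.τ i j)) y) y :=
  ((C.contDiffAt_fderiv_τ hy).differentiableAt (by simp)).hasFDerivAt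

theorem contDiffAt_Γ {i : ι} {y : E} (hy : y ∈ (C.φ i).target) : ContDiffAt ℝ ∞ (C.Γ i) y :=
  (C.smoothΓ i).contDiffAt ((C.φ i).open_target.mem_nhds hy)

theorem hasFDerivAt_Γ {i : ι} {y : E} (hy : y ∈ (C.φ i).target) :
    HasFDerivAt (C.Γ i) (fderiv ℝ (C.Γ i) y) y :=
  ((C.contDiffAt_Γ hy).differentiableAt (by simp)).hasFDerivAt

theorem trans' {i j : ι} {y : E} (hy : y ∈ C.ov i j) (v w : E) :
    C.Γ j (C.τ i j y) (fderiv ℝ (C.τ i j) y v) (fderiv ℝ (C.τ i j) y w) =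
      fderiv ℝ (C.τ i j) y (C.Γ i y v w) - fderiv ℝ (fderiv ℝ (C.τ i j)) y v w :=
  C.transΓ i j y hy v w

theorem mem_ov {i j : ι} {x : M} (hi : x ∈ (C.φ i).source) (hj : x ∈ (C.φ j).source) :
    C.φ i x ∈ C.ov i j := by
  refine ⟨(C.φ i).map_source hi, ?_⟩
  simp only [mem_preimage, (C.φ i).left_inv hi]
  exact hj

theorem τ_apply {i j : ι} {x : M} (hi : x ∈ (C.φ i).source) : C.τ i j (C.φ i x) = C.φ j x := by
  simp only [τ, (C.φ i).left_inv hi]

/-- cocycle property of the transition maps near a point -/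
theorem τ_τ_eventually {i j k : ι} {x : M} (hi : x ∈ (C.φ i).source) (hj : x ∈ (C.φ j).source) :
    (fun y => C.τ j k (C.τ i j y)) =ᶠ[𝓝 (C.φ i x)] C.τ i k := by
  filter_upwards [(C.isOpen_ov i j).mem_nhds (C.mem_ov hi hj)] with y hy
  simp only [τ]
  rw [(C.φ j).left_inv hy.2]

theorem fderiv_τ_comp {i j k : ι} {x : M} (hi : x ∈ (C.φ i).source) (hj : x ∈ (C.φ j).source)
    (hk : x ∈ (C.φ k).source) :
    (fderiv ℝ (C.τ j k) (C.φ j x)).comp (fderiv ℝ (C.τ i j) (C.φ i x)) =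
      fderiv ℝ (C.τ i k) (C.φ i x) := by
  have h1 := C.hasFDerivAt_τ (C.mem_ov hi hj)
  have h2 : HasFDerivAt (C.τ j k) (fderiv ℝ (C.τ j k) (C.φ j x)) (C.τ i j (C.φ i x)) := by
    rw [C.τ_apply hi]
    exact C.hasFDerivAt_τ (C.mem_ov hj hk)
  have h3 := (h2.comp _ h1).congr_of_eventuallyEq (C.τ_τ_eventually (k := k) hi hj).symm
  exact h3.fderiv.symm

theorem fderiv_τ_self {i : ι} {x : M} (hi : x ∈ (C.φ i).source) :
    fderiv ℝ (C.τ i i) (C.φ i x) = ContinuousLinearMap.id ℝ E := by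
  have h : C.τ i i =ᶠ[𝓝 (C.φ i x)] id := by
    filter_upwards [(C.φ i).open_target.mem_nhds ((C.φ i).map_source hi)] with y hy
    simp only [τ, id]
    exact (C.φ i).right_inv hy
  rw [h.fderiv_eq, fderiv_id]

/-- the differential at `x` of the chart `i`, the tangent space at `x` being identified with `E`
through the preferred chart at `x` -/
noncomputable def D (i : ι) (x : M) : E →L[ℝ] E := fderiv ℝ (C.τ (C.pref x) i) (C.φ (C.pref x) x)

/-- the inverse of `D` -/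
noncomputable def D' (i : ι) (x : M) : E →L[ℝ] E := fderiv ℝ (C.τ i (C.pref x)) (C.φ i x)

theorem D'_comp_D {i : ι} {x : M} (hi : x ∈ (C.φ i).source) :
    (C.D' i x).comp (C.D i x) = ContinuousLinearMap.id ℝ E := by
  rw [D, D', C.fderiv_τ_comp (C.mem_pref x) hi (C.mem_pref x), C.fderiv_τ_self (C.mem_pref x)]

theorem D_comp_D' {i : ι} {x : M} (hi : x ∈ (C.φ i).source) :
    (C.D i x).comp (C.D' i x) = ContinuousLinearMap.id ℝ E := by
  rw [D, D', C.fderiv_τ_comp hi (C.mem_pref x) hi, C.fderiv_τ_self hi]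

theorem A_comp_D {i j : ι} {x : M} (hi : x ∈ (C.φ i).source) (hj : x ∈ (C.φ j).source) :
    (fderiv ℝ (C.τ i j) (C.φ i x)).comp (C.D i x) = C.D j x := by
  rw [D, D, C.fderiv_τ_comp (C.mem_pref x) hi hj]

theorem D_pref (x : M) : C.D (C.pref x) x = ContinuousLinearMap.id ℝ E := by
  rw [D, C.fderiv_τ_self (C.mem_pref x)]

section frames

variable {V : Type*} [NormedAddCommGroup V] [NormedSpace ℝ V]

/-- local expression of a frame in the chart `i` -/
noncomputable def loc (i : ι) (p : M × (V →L[ℝ] E)) : E × (V →L[ℝ] E) :=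
  (C.φ i p.1, (C.D i p.1).comp p.2)

/-- the frame with given local expression in the chart `i` -/
noncomputable def unloc (i : ι) (z : E × (V →L[ℝ] E)) : M × (V →L[ℝ] E) :=
  ((C.φ i).symm z.1, (C.D' i ((C.φ i).symm z.1)).comp z.2)

theorem unloc_loc {i : ι} {p : M × (V →L[ℝ] E)} (hi : p.1 ∈ (C.φ i).source) :
    C.unloc i (C.loc i p) = p := by
  obtain ⟨x, F⟩ := p
  simp only [loc, unloc, (C.φ i).left_inv hi, Prod.mk.injEq, true_and]
  rw [← ContinuousLinearMap.comp_assoc, C.D'_comp_D hi, ContinuousLinearMap.id_comp]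

theorem loc_unloc {i : ι} {z : E × (V →L[ℝ] E)} (hz : z.1 ∈ (C.φ i).target) :
    C.loc i (C.unloc i z) = z := by
  obtain ⟨y, Φ⟩ := z
  have hs : (C.φ i).symm y ∈ (C.φ i).source := (C.φ i).map_target hz
  simp only [loc, unloc, (C.φ i).right_inv hz, Prod.mk.injEq, true_and]
  rw [← ContinuousLinearMap.comp_assoc, C.D_comp_D' hs, ContinuousLinearMap.id_comp]

theorem loc_injOn {i : ι} {p q : M × (V →L[ℝ] E)} (hp : p.1 ∈ (C.φ i).source)
    (hq : q.1 ∈ (C.φ i).source) (h : C.loc i p = C.loc i q) : p = q := by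
  rw [← C.unloc_loc hp, ← C.unloc_loc hq, h]

/-- the tangent vector at the local frame `z` corresponding to `(j, ϖ)`: the base point moves with
velocity `Φ j` and the covariant derivative of the frame is `Φ ϖ` -/
noncomputable def Zv (i : ι) (z : E × (V →L[ℝ] E)) (j : V) (ϖ : V →L[ℝ] V) : E × (V →L[ℝ] E) :=
  (z.2 j, -((C.Γ i z.1 (z.2 j)).comp z.2) + z.2.comp ϖ)

/-- the curve `u` of frames has at time `t` the tangent vector `(j, ϖ)` -/
def Tan (u : ℝ → M × (V →L[ℝ] E)) (j : V) (ϖ : V →L[ℝ] V) (t : ℝ) : Prop :=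
  ContinuousAt (fun s => (u s).1) t ∧ ∀ i, (u t).1 ∈ (C.φ i).source →
    HasDerivAt (fun s => C.loc i (u s)) (C.Zv i (C.loc i (u t)) j ϖ) t

/-- transition on local frames -/
noncomputable def τf (i j : ι) (z : E × (V →L[ℝ] E)) : E × (V →L[ℝ] E) :=
  (C.τ i j z.1, (fderiv ℝ (C.τ i j) z.1).comp z.2)

theorem τf_loc {i j : ι} {p : M × (V →L[ℝ] E)} (hi : p.1 ∈ (C.φ i).source)
    (hj : p.1 ∈ (C.φ j).source) : C.τf i j (C.loc i p) = C.loc j p := by
  simp only [τf, loc, C.τ_apply hi, Prod.mk.injEq, true_and]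
  rw [← ContinuousLinearMap.comp_assoc, C.A_comp_D hi hj]

theorem hasDerivAt_τf {i j : ι} {z : ℝ → E × (V →L[ℝ] E)} {t : ℝ} {a : V} {ϖ : V →L[ℝ] V}
    (hz : (z t).1 ∈ C.ov i j) (h : HasDerivAt z (C.Zv i (z t) a ϖ) t) :
    HasDerivAt (fun s => C.τf i j (z s)) (C.Zv j (C.τf i j (z t)) a ϖ) t := by
  have h1 : HasDerivAt (fun s => (z s).1) ((z t).2 a) t := h.fst
  have h2 : HasDerivAt (fun s => (z s).2)
      (-((C.Γ i (z t).1 ((z t).2 a)).comp (z t).2) + (z t).2.comp ϖ) t := h.snd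
  have h3 : HasDerivAt (fun s => C.τ i j (z s).1) (fderiv ℝ (C.τ i j) (z t).1 ((z t).2 a)) t :=
    HasFDerivAt.comp_hasDerivAt (f := fun s => (z s).1) t (C.hasFDerivAt_τ hz) h1
  have h4 : HasDerivAt (fun s => fderiv ℝ (C.τ i j) (z s).1)
      (fderiv ℝ (fderiv ℝ (C.τ i j)) (z t).1 ((z t).2 a)) t :=
    HasFDerivAt.comp_hasDerivAt (f := fun s => (z s).1) t (C.hasFDerivAt_fderiv_τ hz) h1
  have h5 := h4.clm_comp h2
  refine (h3.prodMk h5).congr_deriv ?_
  simp only [Zv, τf, Prod.mk.injEq, ContinuousLinearMap.comp_apply, true_and]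
  ext v
  simp only [add_apply, ContinuousLinearMap.comp_apply, neg_apply, map_add, map_neg]
  rw [C.trans' hz]
  abel

/-- The tangent vector of a curve of frames can be computed in one chart. -/
theorem tan_of_chart {u : ℝ → M × (V →L[ℝ] E)} {a : V} {ϖ : V →L[ℝ] V} {t : ℝ} {i : ι}
    (hc : ContinuousAt (fun s => (u s).1) t) (hi : (u t).1 ∈ (C.φ i).source)
    (h : HasDerivAt (fun s => C.loc i (u s)) (C.Zv i (C.loc i (u t)) a ϖ) t) :
    C.Tan u a ϖ t := by
  refine ⟨hc, fun j hj => ?_⟩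
  have hz : (C.loc i (u t)).1 ∈ C.ov i j := C.mem_ov hi hj
  have h1 := C.hasDerivAt_τf (j := j) hz h
  rw [C.τf_loc hi hj] at h1
  refine h1.congr_of_eventuallyEq ?_
  filter_upwards [hc.eventually ((C.φ i).open_source.mem_nhds hi),
    hc.eventually ((C.φ j).open_source.mem_nhds hj)] with s hsi hsj
  exact (C.τf_loc hsi hsj).symm

/-- version where continuity is only assumed for the local expression -/
theorem tan_of_chart' {u : ℝ → M × (V →L[ℝ] E)} {a : V} {ϖ : V →L[ℝ] V} {t : ℝ} {i : ι}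
    (hi : ∀ᶠ s in 𝓝 t, (u s).1 ∈ (C.φ i).source)
    (h : HasDerivAt (fun s => C.loc i (u s)) (C.Zv i (C.loc i (u t)) a ϖ) t) :
    C.Tan u a ϖ t := by
  refine C.tan_of_chart ?_ hi.self_of_nhds h
  have h1 : ContinuousAt (fun s => C.φ i (u s).1) t := by
    have := h.continuousAt.fst
    exact this
  have hmem : C.φ i (u t).1 ∈ (C.φ i).target := (C.φ i).map_source hi.self_of_nhds
  have h2 : ContinuousAt (fun s => (C.φ i).symm (C.φ i (u s).1)) t :=
    ContinuousAt.comp ((C.φ i).continuousAt_symm hmem) h1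
  refine h2.congr ?_
  filter_upwards [hi] with s hs
  exact (C.φ i).left_inv hs

theorem Tan.congr {u v : ℝ → M × (V →L[ℝ] E)} {a : V} {ϖ : V →L[ℝ] V} {t : ℝ}
    (hu : C.Tan u a ϖ t) (h : u =ᶠ[𝓝 t] v) : C.Tan v a ϖ t := by
  have hut : u t = v t := h.self_of_nhds
  refine ⟨hu.1.congr (h.mono fun s hs => by simp only [hs]), fun i hi => ?_⟩
  rw [← hut] at hi ⊢
  exact (hu.2 i hi).congr_of_eventuallyEq (h.mono fun s hs => by simp only [hs])

/-- Reparametrizing the frames: `(x, F) ↦ (x, F ∘ B)`. -/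
theorem Tan.comp_right {V' : Type*} [NormedAddCommGroup V'] [NormedSpace ℝ V']
    {u : ℝ → M × (V →L[ℝ] E)} {a : V} {ϖ : V →L[ℝ] V} {t : ℝ} (hu : C.Tan u a ϖ t)
    {B : ℝ → V' →L[ℝ] V} {B' : V' →L[ℝ] V} (hB : HasDerivAt B B' t) {a' : V'}
    {ϖ' : V' →L[ℝ] V'} (h1 : B t a' = a) (h2 : ϖ.comp (B t) + B' = (B t).comp ϖ') :
    C.Tan (fun s => ((u s).1, (u s).2.comp (B s))) a' ϖ' t := by
  refine ⟨hu.1, fun i hi => ?_⟩
  have h := hu.2 i hi
  have hf : HasDerivAt (fun s => C.φ i (u s).1) ((C.loc i (u t)).2 a) t := h.fst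
  have hs : HasDerivAt (fun s => (C.D i (u s).1).comp (u s).2)
    (-((C.Γ i (C.loc i (u t)).1 ((C.loc i (u t)).2 a)).comp (C.loc i (u t)).2) +
      (C.loc i (u t)).2.comp ϖ) t := h.snd
  have h3 := hf.prodMk (hs.clm_comp hB)
  refine (h3.congr_deriv ?_).congr_of_eventuallyEq ?_
  · simp only [Zv, loc, Prod.mk.injEq, ContinuousLinearMap.comp_apply, h1, true_and]
    ext v
    have h4 : ϖ (B t v) + B' v = B t (ϖ' v) := by
      have := congrArg (fun L => L v) h2
      simpa using this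
    simp only [add_apply, ContinuousLinearMap.comp_apply, neg_apply]
    rw [← h4, map_add, map_add, add_assoc]
  · exact Eventually.of_forall fun s => by
      simp only [loc, ContinuousLinearMap.comp_assoc]

end frames

end Conn

end Pool.Agent.Lib.PRSym
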