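import Pool.Agent.Lib.PRSym.Exist
import Pool.Agent.Lib.MP_611141_gt.ParSpace

/-!
The space of `V`-frames of a connection as a topological space with charts and a linear family of
vector fields.
-/

open Set Filter Topology Metric
open scoped NNReal ContDiff

namespace Pool.Agent.Lib.PRSym

namespace Conn

variable {ι E M : Type*} [NormedAddCommGroup E] [NormedSpace ℝ E] [TopologicalSpace M]

/-- The space of `V`-frames: pairs of a point `x` and a linear map `V → T_x M = E`. -/
def FrameSpace (_C : Conn ι E M) (V : Type*) [NormedAddCommGroup V] [NormedSpace ℝ V] : Type _ :=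
  M × (V →L[ℝ] E)

variable (C : Conn ι E M) {V : Type*} [NormedAddCommGroup V] [NormedSpace ℝ V]

theorem loc_unloc_eq_τf {i j : ι} {z : E × (V →L[ℝ] E)} (hz : z.1 ∈ C.ov i j) :
    C.loc j (C.unloc i z) = C.τf i j z := by
  have h1 : (C.unloc i z).1 ∈ (C.φ i).source := (C.φ i).map_target hz.1
  have h2 : (C.unloc i z).1 ∈ (C.φ j).source := hz.2
  rw [← C.τf_loc h1 h2, C.loc_unloc hz.1]

theorem contDiffOn_τf (i j : ι) :
    ContDiffOn ℝ ∞ (C.τf (V := V) i j) (C.ov i j ×ˢ univ) := by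
  intro z hz
  have hz1 : z.1 ∈ C.ov i j := hz.1
  have h1 : ContDiffAt ℝ ∞ (fun z : E × (V →L[ℝ] E) => z.1) z := contDiffAt_fst
  have h2 : ContDiffAt ℝ ∞ (fun z : E × (V →L[ℝ] E) => z.2) z := contDiffAt_snd
  have h3 : ContDiffAt ℝ ∞ (fun z : E × (V →L[ℝ] E) => C.τ i j z.1) z :=
    ContDiffAt.comp (g := C.τ i j) (f := fun z : E × (V →L[ℝ] E) => z.1) z
      (C.contDiffAt_τ hz1) h1
  have h4 : ContDiffAt ℝ ∞ (fun z : E × (V →L[ℝ] E) => fderiv ℝ (C.τ i j) z.1) z :=
    ContDiffAt.comp (g := fderiv ℝ (C.τ i j)) (f := fun z : E × (V →L[ℝ] E) => z.1) z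
      (C.contDiffAt_fderiv_τ hz1) h1
  exact (h3.prodMk (h4.clm_comp h2)).contDiffWithinAt

/-- The chart `i` of the frame space as a partial equivalence. -/
noncomputable def locPE (i : ι) : PartialEquiv (C.FrameSpace V) (E × (V →L[ℝ] E)) where
  toFun := fun p => C.loc i p
  invFun := fun z => C.unloc i z
  source := {p | p.1 ∈ (C.φ i).source}
  target := (C.φ i).target ×ˢ univ
  map_source' := fun _ hp => ⟨(C.φ i).map_source hp, mem_univ _⟩
  map_target' := fun _ hz => (C.φ i).map_target hz.1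
  left_inv' := fun _ hp => C.unloc_loc hp
  right_inv' := fun _ hz => C.loc_unloc hz.1

theorem locPE_source (i j : ι) : ((C.locPE (V := V) i).symm.trans (C.locPE j)).source =
    C.ov i j ×ˢ univ := by
  ext z
  simp only [PartialEquiv.trans_source, PartialEquiv.symm_source, mem_inter_iff, mem_preimage,
    mem_prod, mem_univ, and_true]
  constructor
  · rintro ⟨h1, h2⟩
    exact ⟨h1.1, h2⟩
  · rintro ⟨h1, h2⟩
    exact ⟨⟨h1, mem_univ _⟩, h2⟩

/-- The topology and the charts of the frame space. -/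
noncomputable def core : ChartedSpaceCore (E × (V →L[ℝ] E)) (C.FrameSpace V) where
  atlas := range C.locPE
  chartAt p := C.locPE (C.pref p.1)
  mem_chart_source p := C.mem_pref p.1
  chart_mem_atlas p := mem_range_self _
  open_source := by
    rintro _ _ ⟨i, rfl⟩ ⟨j, rfl⟩
    rw [locPE_source]
    exact (C.isOpen_ov i j).prod isOpen_univ
  continuousOn_toFun := by
    rintro _ _ ⟨i, rfl⟩ ⟨j, rfl⟩
    rw [locPE_source]
    refine (C.contDiffOn_τf i j).continuousOn.congr ?_
    intro z hz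
    exact C.loc_unloc_eq_τf hz.1

noncomputable instance : TopologicalSpace (C.FrameSpace V) := (C.core (V := V)).toTopologicalSpace

/-- The chart `i` of the frame space. -/
noncomputable def κ (i : ι) : OpenPartialHomeomorph (C.FrameSpace V) (E × (V →L[ℝ] E)) :=
  (C.core (V := V)).openPartialHomeomorph (C.locPE i) (mem_range_self i)

@[simp] theorem κ_apply (i : ι) (p : C.FrameSpace V) : C.κ i p = C.loc i p := rfl

@[simp] theorem κ_symm_apply (i : ι) (z : E × (V →L[ℝ] E)) :
    (C.κ (V := V) i).symm z = C.unloc i z := rfl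

@[simp] theorem κ_source (i : ι) : (C.κ (V := V) i).source = {p | p.1 ∈ (C.φ i).source} := rfl

@[simp] theorem κ_target (i : ι) : (C.κ (V := V) i).target = (C.φ i).target ×ˢ univ := rfl

/-- the base point -/
def proj (p : C.FrameSpace V) : M := p.1

theorem continuous_proj : Continuous (C.proj (V := V)) := by
  rw [continuous_iff_continuousAt]
  intro p
  have hi := C.mem_pref p.1
  have h1 : ContinuousAt (C.κ (V := V) (C.pref p.1)) p := (C.κ (C.pref p.1)).continuousAt hi
  have h2 : ContinuousAt (fun q => (C.φ (C.pref p.1)).symm (C.κ (V := V) (C.pref p.1) q).1) p := by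
    refine ContinuousAt.comp (g := (C.φ (C.pref p.1)).symm)
      (f := fun q => (C.κ (V := V) (C.pref p.1) q).1) ?_ h1.fst
    exact (C.φ (C.pref p.1)).continuousAt_symm ((C.φ (C.pref p.1)).map_source hi)
  refine h2.congr ?_
  have h3 : ∀ᶠ q in 𝓝 p, q ∈ (C.κ (V := V) (C.pref p.1)).source :=
    (C.κ (C.pref p.1)).open_source.mem_nhds hi
  filter_upwards [h3] with q hq
  exact (C.φ (C.pref p.1)).left_inv hq

instance [T2Space M] : T2Space (C.FrameSpace V) := by
  refine ⟨fun p q hpq => ?_⟩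
  by_cases hb : p.1 = q.1
  · set i := C.pref p.1
    have hp : p ∈ (C.κ (V := V) i).source := C.mem_pref p.1
    have hq : q ∈ (C.κ (V := V) i).source := by
      have : p.1 ∈ (C.φ i).source := C.mem_pref p.1
      rw [hb] at this
      exact this
    have hne : C.κ i p ≠ C.κ i q := fun h => hpq ((C.κ i).injOn hp hq h)
    obtain ⟨U, U', hU, hU', hpU, hqU', hd⟩ := t2_separation hne
    refine ⟨(C.κ i).source ∩ C.κ i ⁻¹' U, (C.κ i).source ∩ C.κ i ⁻¹' U',
      (C.κ i).isOpen_inter_preimage hU, (C.κ i).isOpen_inter_preimage hU', ⟨hp, hpU⟩,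
      ⟨hq, hqU'⟩, ?_⟩
    exact (hd.preimage _).mono inter_subset_right inter_subset_right
  · obtain ⟨U, U', hU, hU', hpU, hqU', hd⟩ := t2_separation hb
    exact ⟨C.proj ⁻¹' U, C.proj ⁻¹' U', hU.preimage C.continuous_proj,
      hU'.preimage C.continuous_proj, hpU, hqU', hd.preimage _⟩

/-- the linear family of vector fields in the chart `i` -/
noncomputable def Y (i : ι) (z : E × (V →L[ℝ] E)) :
    (V × (V →L[ℝ] V)) →L[ℝ] (E × (V →L[ℝ] E)) :=
  (z.2.comp (ContinuousLinearMap.fst ℝ V (V →L[ℝ] V))).prod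
    (-(((ContinuousLinearMap.compL ℝ V E E).flip z.2).comp ((C.Γ i z.1).comp z.2)).comp
      (ContinuousLinearMap.fst ℝ V (V →L[ℝ] V)) +
      (ContinuousLinearMap.compL ℝ V V E z.2).comp (ContinuousLinearMap.snd ℝ V (V →L[ℝ] V)))

@[simp] theorem Y_apply (i : ι) (z : E × (V →L[ℝ] E)) (a : V) (ϖ : V →L[ℝ] V) :
    C.Y i z (a, ϖ) = C.Zv i z a ϖ := by
  simp [Y, Zv]

theorem contDiffAt_Y {i : ι} {z : E × (V →L[ℝ] E)} (hz : z.1 ∈ (C.φ i).target) :
    ContDiffAt ℝ ∞ (C.Y (V := V) i) z := by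
  have h1 : ContDiffAt ℝ ∞ (fun z : E × (V →L[ℝ] E) => z.1) z := contDiffAt_fst
  have h2 : ContDiffAt ℝ ∞ (fun z : E × (V →L[ℝ] E) => z.2) z := contDiffAt_snd
  have h4 : ContDiffAt ℝ ∞ (fun z : E × (V →L[ℝ] E) => C.Γ i z.1) z :=
    ContDiffAt.comp z (C.contDiffAt_Γ hz) h1
  have h5 : ContDiffAt ℝ ∞ (fun z : E × (V →L[ℝ] E) =>
      (ContinuousLinearMap.compL ℝ V E E).flip z.2) z :=
    ContDiffAt.clm_apply contDiffAt_const h2
  have h6 : ContDiffAt ℝ ∞ (fun z : E × (V →L[ℝ] E) => ContinuousLinearMap.compL ℝ V V E z.2) z :=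
    ContDiffAt.clm_apply contDiffAt_const h2
  have h7 := h5.clm_comp (h4.clm_comp h2)
  have h8 := (h7.neg.clm_comp (contDiffAt_const (c := ContinuousLinearMap.fst ℝ V (V →L[ℝ] V)))).add
    (h6.clm_comp (contDiffAt_const (c := ContinuousLinearMap.snd ℝ V (V →L[ℝ] V))))
  have h9 := h2.clm_comp (contDiffAt_const (c := ContinuousLinearMap.fst ℝ V (V →L[ℝ] V)))
  have h10 := ((contDiffAt_const (c := ContinuousLinearMap.inl ℝ E (V →L[ℝ] E))).clm_comp h9).add
    ((contDiffAt_const (c := ContinuousLinearMap.inr ℝ E (V →L[ℝ] E))).clm_comp h8)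
  refine h10.congr_of_eventuallyEq (Eventually.of_forall fun z => ?_)
  ext x <;> simp [Y]

/-- The frame space with its fields as a `ParSpace`. -/
noncomputable def parSpace (V : Type*) [NormedAddCommGroup V] [NormedSpace ℝ V] :
    MP_611141_gt.ParSpace (C.FrameSpace V) ι (E × (V →L[ℝ] E)) (V × (V →L[ℝ] V)) where
  κ := C.κ
  cover p := ⟨C.pref p.1, C.mem_pref p.1⟩
  Y := C.Y
  smooth i := fun z hz => ((C.contDiffAt_Y hz.1).of_le (WithTop.coe_le_coe.2 le_top)).contDiffWithinAt
  compat i j p hi hj := by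
    have hov : (C.loc i p).1 ∈ C.ov i j := C.mem_ov hi hj
    refine ⟨fderiv ℝ (C.τf i j) (C.loc i p), ?_, ?_⟩
    · have h1 : HasFDerivAt (C.τf (V := V) i j) (fderiv ℝ (C.τf i j) (C.loc i p)) (C.loc i p) := by
        have h2 := (C.contDiffOn_τf (V := V) i j).contDiffAt
          (((C.isOpen_ov i j).prod isOpen_univ).mem_nhds ⟨hov, mem_univ _⟩)
        exact (h2.differentiableAt (by simp)).hasFDerivAt
      refine h1.congr_of_eventuallyEq ?_
      have h3 : ∀ᶠ z in 𝓝 (C.loc i p), z ∈ C.ov i j ×ˢ (univ : Set (V →L[ℝ] E)) :=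
        ((C.isOpen_ov i j).prod isOpen_univ).mem_nhds ⟨hov, mem_univ _⟩
      filter_upwards [h3] with z hz
      exact C.loc_unloc_eq_τf hz.1
    · rintro ⟨a, ϖ⟩
      have h1 : HasFDerivAt (C.τf (V := V) i j) (fderiv ℝ (C.τf i j) (C.loc i p)) (C.loc i p) := by
        have h2 := (C.contDiffOn_τf (V := V) i j).contDiffAt
          (((C.isOpen_ov i j).prod isOpen_univ).mem_nhds ⟨hov, mem_univ _⟩)
        exact (h2.differentiableAt (by simp)).hasFDerivAt
      have h4 : HasDerivAt (fun s : ℝ => C.loc i p + s • C.Zv i (C.loc i p) a ϖ)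
          (C.Zv i (C.loc i p) a ϖ) 0 := by
        have := ((hasDerivAt_id (0 : ℝ)).smul_const (C.Zv i (C.loc i p) a ϖ)).const_add
          (C.loc i p)
        simpa using this
      have h5 := C.hasDerivAt_τf (z := fun s : ℝ => C.loc i p + s • C.Zv i (C.loc i p) a ϖ)
        (t := 0) (i := i) (j := j) (a := a) (ϖ := ϖ) (by simpa using hov)
        (by simpa using h4)
      have h6 := HasFDerivAt.comp_hasDerivAt (f := fun s : ℝ => C.loc i p +
        s • C.Zv i (C.loc i p) a ϖ) (l := C.τf i j) 0 (by simpa using h1) h4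
      have h7 := h6.unique h5
      simp only [zero_smul, add_zero] at h7
      rw [κ_apply, κ_apply, Y_apply, Y_apply, h7, C.τf_loc hi hj]

/-- Control paths of the `ParSpace` are exactly the curves with the given tangent vectors. -/
theorem ctl_iff_tan {u : ℝ → C.FrameSpace V} {a : V} {ϖ : V →L[ℝ] V} {t : ℝ} :
    (C.parSpace V).Ctl u (a, ϖ) t ↔ C.Tan u a ϖ t := by
  constructor
  · rintro ⟨h1, h2⟩
    refine ⟨C.continuous_proj.continuousAt.comp h1, fun i hi => ?_⟩
    have := h2 i hi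
    change HasDerivAt (fun s => C.loc i (u s)) (C.Y i (C.loc i (u t)) (a, ϖ)) t at this
    rwa [Y_apply] at this
  · rintro ⟨h1, h2⟩
    refine ⟨?_, fun i hi => ?_⟩
    · have hi : u t ∈ (C.κ (V := V) (C.pref (u t).1)).source := C.mem_pref (u t).1
      have h3 : ContinuousAt (fun s => C.κ (V := V) (C.pref (u t).1) (u s)) t :=
        (h2 _ hi).continuousAt
      have h4 := ((C.κ (V := V) (C.pref (u t).1)).continuousAt_symm
        ((C.κ (V := V) (C.pref (u t).1)).map_source hi)).comp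
        (f := fun s => C.κ (V := V) (C.pref (u t).1) (u s)) h3
      refine h4.congr ?_
      have h5 : ∀ᶠ s in 𝓝 t, (u s).1 ∈ (C.φ (C.pref (u t).1)).source :=
        h1.eventually ((C.φ _).open_source.mem_nhds hi)
      filter_upwards [h5] with s hs
      exact (C.κ (V := V) (C.pref (u t).1)).left_inv hs
    · change HasDerivAt (fun s => C.loc i (u s)) (C.Y i (C.loc i (u t)) (a, ϖ)) t
      rw [Y_apply]
      exact h2 i hi

end Conn

end Pool.Agent.Lib.PRSym
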