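import Mathlib

/-!
ODE tools: a local flow of a locally Lipschitz vector field which stays in a prescribed ball,
the calculus of functions that are Lipschitz near a point, and the differentiability of solutions
with respect to a parameter.
-/

open Set Filter Topology Metric
open scoped NNReal

namespace Pool.Agent.Lib.PRSym

/-! ### Functions which are Lipschitz near a point -/

/-- `f` is Lipschitz on a neighbourhood of `x`. -/
def LipAt {X Y : Type*} [PseudoEMetricSpace X] [PseudoEMetricSpace Y] (f : X → Y) (x : X) : Prop :=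
  ∃ K : ℝ≥0, ∃ s ∈ 𝓝 x, LipschitzOnWith K f s

namespace LipAt

variable {X Y Z : Type*} [PseudoEMetricSpace X] [PseudoEMetricSpace Y] [PseudoEMetricSpace Z]

theorem continuousAt {f : X → Y} {x : X} (hf : LipAt f x) : ContinuousAt f x := by
  obtain ⟨K, s, hs, h⟩ := hf
  exact h.continuousOn.continuousAt hs

theorem comp {g : Y → Z} {f : X → Y} {x : X} (hg : LipAt g (f x)) (hf : LipAt f x) :
    LipAt (fun z => g (f z)) x := by
  have hc := hf.continuousAt
  obtain ⟨K, s, hs, h⟩ := hf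
  obtain ⟨K', s', hs', h'⟩ := hg
  refine ⟨K' * K, s ∩ f ⁻¹' s', inter_mem hs (hc hs'), ?_⟩
  exact h'.comp (h.mono inter_subset_left) (fun z hz => hz.2)

theorem comp' {g : Y → Z} {f : X → Y} {x : X} {y : Y} (hg : LipAt g y) (hf : LipAt f x)
    (hy : f x = y) : LipAt (fun z => g (f z)) x := by
  subst hy; exact hg.comp hf

theorem prodMk {f : X → Y} {g : X → Z} {x : X} (hf : LipAt f x) (hg : LipAt g x) :
    LipAt (fun z => (f z, g z)) x := by
  obtain ⟨K, s, hs, h⟩ := hf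
  obtain ⟨K', s', hs', h'⟩ := hg
  exact ⟨max K K', s ∩ s', inter_mem hs hs',
    (h.mono inter_subset_left).prodMk (h'.mono inter_subset_right)⟩

theorem id (x : X) : LipAt (fun z : X => z) x :=
  ⟨1, univ, univ_mem, LipschitzWith.id.lipschitzOnWith⟩

theorem const (x : X) (c : Y) : LipAt (fun _ : X => c) x :=
  ⟨0, univ, univ_mem, (LipschitzWith.const c).lipschitzOnWith⟩

theorem fst (x : X × Y) : LipAt (fun z : X × Y => z.1) x :=
  ⟨1, univ, univ_mem, LipschitzWith.prod_fst.lipschitzOnWith⟩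

theorem snd (x : X × Y) : LipAt (fun z : X × Y => z.2) x :=
  ⟨1, univ, univ_mem, LipschitzWith.prod_snd.lipschitzOnWith⟩

theorem congr {f g : X → Y} {x : X} (hf : LipAt f x) (h : f =ᶠ[𝓝 x] g) : LipAt g x := by
  obtain ⟨K, s, hs, h1⟩ := hf
  refine ⟨K, s ∩ {z | f z = g z}, inter_mem hs h, ?_⟩
  intro a ha b hb
  have ha2 : f a = g a := ha.2
  have hb2 : f b = g b := hb.2
  rw [← ha2, ← hb2]
  exact h1 ha.1 hb.1

end LipAt

theorem lipAt_of_contDiffAt {W W' : Type*} [NormedAddCommGroup W] [NormedSpace ℝ W]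
    [NormedAddCommGroup W'] [NormedSpace ℝ W'] {f : W → W'} {x : W} (hf : ContDiffAt ℝ 1 f x) :
    LipAt f x :=
  hf.exists_lipschitzOnWith

/-! ### Local flow -/

section flow

open ODE in
/-- The Picard-Lindelof flow, with the information that it stays in the ball. -/
theorem plFlow {E : Type*} [NormedAddCommGroup E] [NormedSpace ℝ E] [CompleteSpace E]
    {f : ℝ → E → E} {tmin tmax : ℝ} {t₀ : Icc tmin tmax} {x₀ : E} {a r L K : ℝ≥0}
    (hf : IsPicardLindelof f t₀ x₀ a r L K) :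
    ∃ α : E → ℝ → E, (∀ x ∈ closedBall x₀ r, α x t₀ = x ∧
      ∀ t ∈ Icc tmin tmax, HasDerivWithinAt (α x) (f t (α x t)) (Icc tmin tmax) t ∧
        α x t ∈ closedBall x₀ a) ∧
      ∃ L' : ℝ≥0, ∀ t ∈ Icc tmin tmax, LipschitzOnWith L' (α · t) (closedBall x₀ r) := by
  classical
  have (x) (hx : x ∈ closedBall x₀ r) := FunSpace.exists_isFixedPt_next hf hx
  choose α hα using this
  set α' := fun (x : E) ↦ if hx : x ∈ closedBall x₀ r then
    α x hx |>.compProj else 0 with hα'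
  refine ⟨α', fun x hx ↦ ⟨?_, fun t ht ↦ ⟨?_, ?_⟩⟩, ?_⟩
  · rw [hα']
    beta_reduce
    rw [dif_pos hx, FunSpace.compProj_val, ← hα, FunSpace.next_apply₀]
  · rw [hα']
    beta_reduce
    rw [dif_pos hx, FunSpace.compProj_apply]
    apply hasDerivWithinAt_picard_Icc t₀.2 hf.continuousOn_uncurry
      (α x hx |>.continuous_compProj.continuousOn)
      (fun _ ht' ↦ α x hx |>.compProj_mem_closedBall hf.mul_max_le)
      x ht |>.congr_of_mem _ ht
    intro t' ht'
    nth_rw 1 [← hα x hx]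
    rw [FunSpace.compProj_of_mem ht', FunSpace.next_apply]
  · rw [hα']
    beta_reduce
    rw [dif_pos hx]
    exact (α x hx).compProj_mem_closedBall hf.mul_max_le
  · obtain ⟨L', h⟩ := FunSpace.exists_forall_closedBall_funSpace_dist_le_mul hf
    refine ⟨L', fun t ht ↦ LipschitzOnWith.of_dist_le_mul fun x hx y hy ↦ ?_⟩
    simp_rw [hα']
    rw [dif_pos hx, dif_pos hy, FunSpace.compProj_apply, FunSpace.compProj_apply,
      ← FunSpace.toContinuousMap_apply_eq_apply, ← FunSpace.toContinuousMap_apply_eq_apply]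
    have : Nonempty (Icc tmin tmax) := ⟨t₀⟩
    apply ContinuousMap.dist_le_iff_of_nonempty.mp
    exact h x y hx hy (α x hx) (α y hy) (hα x hx) (hα y hy)

variable {W : Type*} [NormedAddCommGroup W] [NormedSpace ℝ W] [CompleteSpace W]

/-- Local flow of a locally Lipschitz vector field, staying inside a prescribed ball, jointly
Lipschitz in the initial point and the time. -/
theorem localFlow {f : W → W} {x₀ : W} (hf : LipAt f x₀) {ρ : ℝ} (hρ : 0 < ρ) :
    ∃ ε > (0 : ℝ), ∃ r > (0 : ℝ), ∃ α : W → ℝ → W,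
      (∀ x ∈ closedBall x₀ r, α x 0 = x ∧ ∀ t ∈ Ioo (-ε) ε,
        HasDerivAt (α x) (f (α x t)) t ∧ α x t ∈ ball x₀ ρ) ∧
      ∃ L : ℝ≥0, LipschitzOnWith L (fun p : W × ℝ => α p.1 p.2)
        (closedBall x₀ r ×ˢ Ioo (-ε) ε) := by
  obtain ⟨K, s, hs, hl⟩ := hf
  obtain ⟨a₀, ha₀ : 0 < a₀, has⟩ := Metric.mem_nhds_iff.mp hs
  obtain ⟨a, ha, haa₀, haρ⟩ : ∃ a : ℝ, 0 < a ∧ a < a₀ ∧ a < ρ :=
    ⟨min (a₀ / 2) (ρ / 2), by positivity, lt_of_le_of_lt (min_le_left _ _) (half_lt_self ha₀),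
      lt_of_le_of_lt (min_le_right _ _) (half_lt_self hρ)⟩
  have hsub : closedBall x₀ a ⊆ s := (closedBall_subset_ball haa₀).trans has
  obtain ⟨L, hL⟩ : ∃ L : ℝ, L = K * a + ‖f x₀‖ + 1 := ⟨_, rfl⟩
  have hL0 : 0 < L := by rw [hL]; positivity
  have hb (x : W) (hx : x ∈ closedBall x₀ a) : ‖f x‖ ≤ L := by
    rw [hL]
    calc
      ‖f x‖ ≤ ‖f x - f x₀‖ + ‖f x₀‖ := norm_le_norm_sub_add _ _
      _ ≤ K * ‖x - x₀‖ + ‖f x₀‖ := by
        gcongr
        exact hl.norm_sub_le (hsub hx) (mem_of_mem_nhds hs)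
      _ ≤ K * a + ‖f x₀‖ := by
        gcongr
        rw [← mem_closedBall_iff_norm]
        exact hx
      _ ≤ K * a + ‖f x₀‖ + 1 := by linarith
  obtain ⟨ε, hε⟩ : ∃ ε : ℝ, ε = a / L / 2 := ⟨_, rfl⟩
  have hε0 : 0 < ε := by rw [hε]; positivity
  obtain ⟨A, hA⟩ : ∃ A : ℝ≥0, (A : ℝ) = a := ⟨⟨a, ha.le⟩, rfl⟩
  obtain ⟨LL, hLL⟩ : ∃ A : ℝ≥0, (A : ℝ) = L := ⟨⟨L, hL0.le⟩, rfl⟩
  have h0mem : (0 : ℝ) ∈ Icc (-ε) ε := ⟨by linarith, by linarith⟩
  have hpl : IsPicardLindelof (fun _ => f) (tmin := (-ε)) (tmax := ε)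
      ⟨0, h0mem⟩ x₀ A (A / 2) LL K := by
    apply IsPicardLindelof.of_time_independent (by rw [hA, hLL]; exact hb)
      (by rw [hA]; exact hl.mono hsub)
    simp only [sub_zero, zero_sub, neg_neg, max_self, NNReal.coe_div, NNReal.coe_ofNat, hA, hLL]
    rw [hε]
    apply le_of_eq
    field_simp
    norm_num
  obtain ⟨α, hα, L', hL'⟩ := plFlow hpl
  have hr : ((A / 2 : ℝ≥0) : ℝ) = a / 2 := by simp [hA]
  rw [hr, hA] at hα
  rw [hr] at hL'
  refine ⟨ε, hε0, a / 2, by positivity, α, fun x hx => ⟨(hα x hx).1, fun t ht => ⟨?_, ?_⟩⟩,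
    L' + LL, ?_⟩
  · exact ((hα x hx).2 t (Ioo_subset_Icc_self ht)).1.hasDerivAt (Icc_mem_nhds ht.1 ht.2)
  · exact closedBall_subset_ball haρ ((hα x hx).2 t (Ioo_subset_Icc_self ht)).2
  · refine LipschitzOnWith.of_dist_le_mul ?_
    rintro ⟨x, t⟩ ⟨hx, ht⟩ ⟨y, u⟩ ⟨hy, hu⟩
    simp only at hx ht hy hu ⊢
    have h1 : dist (α x t) (α y t) ≤ L' * dist x y :=
      (hL' t (Ioo_subset_Icc_self ht)).dist_le_mul x hx y hy
    have h2 : dist (α y t) (α y u) ≤ LL * dist t u := by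
      rw [dist_eq_norm, dist_eq_norm]
      refine Convex.norm_image_sub_le_of_norm_hasDerivWithin_le (𝕜 := ℝ) (s := Ioo (-ε) ε)
        (f' := fun t => f (α y t)) ?_ ?_ (convex_Ioo _ _) hu ht
      · intro τ hτ
        exact ((((hα y hy).2 τ (Ioo_subset_Icc_self hτ)).1.hasDerivAt
          (Icc_mem_nhds hτ.1 hτ.2))).hasDerivWithinAt
      · intro τ hτ
        rw [hLL]
        exact hb _ ((hα y hy).2 τ (Ioo_subset_Icc_self hτ)).2
    calc dist (α x t) (α y u) ≤ dist (α x t) (α y t) + dist (α y t) (α y u) :=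
          dist_triangle _ _ _
      _ ≤ L' * dist x y + LL * dist t u := add_le_add h1 h2
      _ ≤ L' * dist (x, t) (y, u) + LL * dist (x, t) (y, u) := by
          rw [Prod.dist_eq]
          gcongr
          · exact le_max_left _ _
          · exact le_max_right _ _
      _ = _ := by
          rw [← add_mul]; rfl

end flow

end Pool.Agent.Lib.PRSym
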