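import Pool.Agent.Lib.PRSym.Ode

/-!
Differentiability of the solutions of an autonomous ODE with respect to a parameter, in a normed
space.
-/

open Set Filter Topology Metric
open scoped NNReal

namespace Pool.Agent.Lib.PRSym

variable {W : Type*} [NormedAddCommGroup W] [NormedSpace ℝ W]

theorem taylor_quadratic {X : W → W} {DX : W → W →L[ℝ] W} {K' : ℝ≥0} {B : Set W}
    (hB : Convex ℝ B) (hX : ∀ z ∈ B, HasFDerivAt X (DX z) z) (hDX : LipschitzOnWith K' DX B)
    {z h : W} (hz : z ∈ B) (hzh : z + h ∈ B) :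
    ‖X (z + h) - X z - DX z h‖ ≤ K' * ‖h‖ ^ 2 := by
  have hseg : segment ℝ z (z + h) ⊆ B := hB.segment_subset hz hzh
  have key := Convex.norm_image_sub_le_of_norm_hasFDerivWithin_le' (𝕜 := ℝ) (f := X)
    (f' := DX) (φ := DX z) (C := K' * ‖h‖) (s := segment ℝ z (z + h)) (x := z) (y := z + h)
    (fun x hx => (hX x (hseg hx)).hasFDerivWithinAt) ?_ (convex_segment _ _)
    (left_mem_segment _ _ _) (right_mem_segment _ _ _)
  · have e : z + h - z = h := by abel
    rw [e] at key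
    calc _ ≤ K' * ‖h‖ * ‖h‖ := key
      _ = _ := by ring
  · intro x hx
    calc ‖DX x - DX z‖ ≤ K' * ‖x - z‖ := hDX.norm_sub_le (hseg hx) hz
      _ ≤ K' * ‖h‖ := by
        gcongr
        rw [segment_eq_image'] at hx
        obtain ⟨θ, hθ, rfl⟩ := hx
        have : z + θ • (z + h - z) - z = θ • h := by
          rw [add_sub_cancel_left, add_sub_cancel_left]
        rw [this, norm_smul, Real.norm_of_nonneg hθ.1]
        exact mul_le_of_le_one_left (norm_nonneg _) hθ.2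

theorem variation_forward {X : W → W} {DX : W → W →L[ℝ] W} {K K' : ℝ≥0} {zs : W} {ρ : ℝ}
    (hX : ∀ z ∈ ball zs ρ, HasFDerivAt X (DX z) z) (hDX : LipschitzOnWith K' DX (ball zs ρ))
    (hXl : LipschitzOnWith K X (ball zs ρ)) {z : ℝ → ℝ → W} {w : ℝ → W} {t₀ s₁ s₂ : ℝ}
    (hs : s₁ ≤ s₂)
    (hz : ∀ᶠ t in 𝓝 t₀, ∀ s ∈ Icc s₁ s₂, z t s ∈ ball zs (ρ / 2) ∧ HasDerivAt (z t) (X (z t s)) s)
    (hw : ∀ s ∈ Icc s₁ s₂, HasDerivAt w (DX (z t₀ s) (w s)) s)
    (h1 : HasDerivAt (fun t => z t s₁) (w s₁) t₀) :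
    HasDerivAt (fun t => z t s₂) (w s₂) t₀ := by
  have hz0 := hz.self_of_nhds
  have hwc : ContinuousOn w (Icc s₁ s₂) := fun s hs => (hw s hs).continuousAt.continuousWithinAt
  obtain ⟨M, hM⟩ := (isCompact_Icc.image_of_continuousOn hwc).isBounded.exists_norm_le
  have hM' : ∀ s ∈ Icc s₁ s₂, ‖w s‖ ≤ M := fun s hs => hM _ (mem_image_of_mem _ hs)
  have hM0 : 0 ≤ M := (norm_nonneg _).trans (hM' s₁ ⟨le_rfl, hs⟩)
  have hρ : 0 < ρ := by
    have := (hz0 s₁ ⟨le_rfl, hs⟩).1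
    have h2 : 0 < ρ / 2 := pos_of_mem_ball this
    linarith
  have hsmall : ∀ᶠ t in 𝓝 t₀, |t - t₀| * M < ρ / 2 := by
    have : Tendsto (fun t => |t - t₀| * M) (𝓝 t₀) (𝓝 (|t₀ - t₀| * M)) := by
      apply Continuous.tendsto (f := fun t => |t - t₀| * M)
      fun_prop
    simp only [sub_self, abs_zero, zero_mul] at this
    exact this.eventually (gt_mem_nhds (by positivity))
  set K1 : ℝ≥0 := K + 1 with hK1
  have hK1pos : (0 : ℝ) < K1 := by rw [hK1]; positivity
  have hXl1 : LipschitzOnWith K1 X (ball zs ρ) := hXl.weaken (by rw [hK1]; exact le_self_add)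
  set C : ℝ := Real.exp (K1 * (s₂ - s₁)) with hC
  -- the main estimate
  have main : ∀ᶠ t in 𝓝 t₀, ‖z t s₂ - z t₀ s₂ - (t - t₀) • w s₂‖ ≤
      C * ‖‖z t s₁ - z t₀ s₁ - (t - t₀) • w s₁‖ + (K' * M ^ 2 / K1) * (t - t₀) ^ 2‖ := by
    filter_upwards [hz, hsmall] with t ht htM
    have hgmem : ∀ s ∈ Icc s₁ s₂, z t₀ s + (t - t₀) • w s ∈ ball zs ρ := by
      intro s hs
      rw [mem_ball_iff_norm]
      have e : z t₀ s + (t - t₀) • w s - zs = (z t₀ s - zs) + (t - t₀) • w s := by abel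
      rw [e]
      calc _ ≤ ‖z t₀ s - zs‖ + ‖(t - t₀) • w s‖ := norm_add_le _ _
        _ < ρ / 2 + ρ / 2 := by
          apply add_lt_add_of_lt_of_le
          · exact mem_ball_iff_norm.mp (hz0 s hs).1
          · rw [norm_smul, Real.norm_eq_abs]
            calc |t - t₀| * ‖w s‖ ≤ |t - t₀| * M := by gcongr; exact hM' s hs
              _ ≤ ρ / 2 := htM.le
        _ = ρ := by ring
    have hball : ball zs (ρ / 2) ⊆ ball zs ρ := ball_subset_ball (by linarith)
    have est := dist_le_of_approx_trajectories_ODE_of_mem (v := fun _ => X)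
      (s := fun _ => ball zs ρ) (K := K1) (f := z t) (g := fun s => z t₀ s + (t - t₀) • w s)
      (f' := fun s => X (z t s)) (g' := fun s => X (z t₀ s) + (t - t₀) • DX (z t₀ s) (w s))
      (a := s₁) (b := s₂) (εf := 0) (εg := K' * M ^ 2 * (t - t₀) ^ 2)
      (δ := ‖z t s₁ - z t₀ s₁ - (t - t₀) • w s₁‖)
      (fun s _ => hXl1)
      (fun s hs => (ht s hs).2.continuousAt.continuousWithinAt)
      (fun s hs => ((ht s (Ico_subset_Icc_self hs)).2).hasDerivWithinAt)
      (fun s hs => by simp)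
      (fun s hs => hball (ht s (Ico_subset_Icc_self hs)).1)
      ?_ ?_ ?_ (fun s hs => hgmem s (Ico_subset_Icc_self hs)) ?_ s₂ ⟨hs, le_rfl⟩
    · rw [dist_eq_norm] at est
      have e : z t s₂ - z t₀ s₂ - (t - t₀) • w s₂ = z t s₂ - (z t₀ s₂ + (t - t₀) • w s₂) := by abel
      rw [e]
      refine est.trans ?_
      rw [gronwallBound_of_K_ne_0 hK1pos.ne', zero_add]
      beta_reduce
      rw [← hC]
      set δ := ‖z t s₁ - z t₀ s₁ - (t - t₀) • w s₁‖
      have hδ : 0 ≤ δ := norm_nonneg _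
      have hE : 0 ≤ (K' * M ^ 2 / K1) * (t - t₀) ^ 2 := by positivity
      rw [Real.norm_of_nonneg (add_nonneg hδ hE)]
      have hC0 : 0 < C := Real.exp_pos _
      have : δ * C + K' * M ^ 2 * (t - t₀) ^ 2 / K1 * (C - 1) ≤
          C * (δ + K' * M ^ 2 / K1 * (t - t₀) ^ 2) := by
        have e2 : K' * M ^ 2 * (t - t₀) ^ 2 / K1 = K' * M ^ 2 / K1 * (t - t₀) ^ 2 := by ring
        rw [e2]
        nlinarith
      exact this
    · intro s hs
      exact ((hz0 s hs).2.add ((hw s hs).const_smul _)).continuousAt.continuousWithinAt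
    · intro s hs
      exact ((hz0 s (Ico_subset_Icc_self hs)).2.add
        ((hw s (Ico_subset_Icc_self hs)).const_smul _)).hasDerivWithinAt
    · intro s hs
      have hs' := Ico_subset_Icc_self hs
      rw [dist_comm, dist_eq_norm]
      have e : X (z t₀ s + (t - t₀) • w s) - (X (z t₀ s) + (t - t₀) • DX (z t₀ s) (w s)) =
          X (z t₀ s + (t - t₀) • w s) - X (z t₀ s) - DX (z t₀ s) ((t - t₀) • w s) := by
        rw [map_smul]; abel
      rw [e]
      refine (taylor_quadratic (convex_ball _ _) hX hDX (hball (hz0 s hs').1)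
        (hgmem s hs')).trans ?_
      rw [norm_smul, mul_pow, Real.norm_eq_abs, sq_abs]
      have h5 : ‖w s‖ ^ 2 ≤ M ^ 2 := by
        have := hM' s hs'
        gcongr
      calc (K' : ℝ) * ((t - t₀) ^ 2 * ‖w s‖ ^ 2) ≤ K' * ((t - t₀) ^ 2 * M ^ 2) := by gcongr
        _ = _ := by ring
    · rw [dist_eq_norm]
      apply le_of_eq
      congr 1
      abel
  rw [hasDerivAt_iff_isLittleO] at h1 ⊢
  have hO : (fun t => z t s₂ - z t₀ s₂ - (t - t₀) • w s₂) =O[𝓝 t₀] fun t =>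
      ‖z t s₁ - z t₀ s₁ - (t - t₀) • w s₁‖ + (K' * M ^ 2 / K1) * (t - t₀) ^ 2 :=
    Asymptotics.IsBigO.of_bound C main
  refine hO.trans_isLittleO ?_
  apply Asymptotics.IsLittleO.add
  · exact h1.norm_left
  · apply Asymptotics.IsLittleO.const_mul_left
    have : (fun t : ℝ => (t - t₀) ^ 2) = fun t => (t - t₀) * (t - t₀) := by
      ext t; ring
    rw [this]
    have h2 : (fun t : ℝ => t - t₀) =o[𝓝 t₀] fun _ => (1 : ℝ) := by
      rw [Asymptotics.isLittleO_one_iff]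
      have : Tendsto (fun t => t - t₀) (𝓝 t₀) (𝓝 (t₀ - t₀)) := by
        apply Continuous.tendsto (f := fun t => t - t₀); fun_prop
      simpa using this
    have := h2.mul_isBigO (Asymptotics.isBigO_refl (fun t : ℝ => t - t₀) (𝓝 t₀))
    simpa using this

/-- Differentiability of solutions with respect to a parameter. -/
theorem variation {X : W → W} {DX : W → W →L[ℝ] W} {K K' : ℝ≥0} {zs : W} {ρ : ℝ}
    (hX : ∀ z ∈ ball zs ρ, HasFDerivAt X (DX z) z) (hDX : LipschitzOnWith K' DX (ball zs ρ))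
    (hXl : LipschitzOnWith K X (ball zs ρ)) {z : ℝ → ℝ → W} {w : ℝ → W} {t₀ s₁ s₂ : ℝ}
    {I : Set ℝ} (hI : I.OrdConnected) (hs₁ : s₁ ∈ I) (hs₂ : s₂ ∈ I)
    (hz : ∀ᶠ t in 𝓝 t₀, ∀ s ∈ I, z t s ∈ ball zs (ρ / 2) ∧ HasDerivAt (z t) (X (z t s)) s)
    (hw : ∀ s ∈ I, HasDerivAt w (DX (z t₀ s) (w s)) s)
    (h1 : HasDerivAt (fun t => z t s₁) (w s₁) t₀) :
    HasDerivAt (fun t => z t s₂) (w s₂) t₀ := by
  rcases le_total s₁ s₂ with h | h
  · have hsub : Icc s₁ s₂ ⊆ I := hI.out hs₁ hs₂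
    exact variation_forward hX hDX hXl h (hz.mono fun t ht s hs => ht s (hsub hs))
      (fun s hs => hw s (hsub hs)) h1
  · have hsub : ∀ s ∈ Icc (-s₁) (-s₂), -s ∈ I := fun s hs =>
      hI.out hs₂ hs₁ ⟨by linarith [hs.2], by linarith [hs.1]⟩
    have hneg : ∀ s : ℝ, HasDerivAt (fun s : ℝ => -s) (-1) s := fun s => hasDerivAt_neg s
    have := variation_forward (X := fun z => - X z) (DX := fun z => - DX z) (K := K) (K' := K')
      (zs := zs) (ρ := ρ) (z := fun t s => z t (-s)) (w := fun s => w (-s)) (t₀ := t₀)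
      (s₁ := -s₁) (s₂ := -s₂) (fun z hz => (hX z hz).neg)
      (by
        intro a ha b hb
        simp only [edist_neg_neg]
        exact hDX ha hb)
      (by
        intro a ha b hb
        simp only [edist_neg_neg]
        exact hXl ha hb)
      (by linarith)
      (hz.mono fun t ht s hs => ⟨(ht (-s) (hsub s hs)).1, ?_⟩)
      (fun s hs => ?_) (by simpa using h1)
    · simpa using this
    · have h3 := HasDerivAt.scomp s ((ht (-s) (hsub s hs)).2) (hneg s)
      simpa [Function.comp_def] using h3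
    · have h3 := HasDerivAt.scomp s (hw (-s) (hsub s hs)) (hneg s)
      simpa [Function.comp_def] using h3

/-- Differentiating `t ↦ z t (a t)` when `z t` is an integral curve of `X` for every `t`. -/
theorem hasDerivAt_comp_time {X : W → W} {z : ℝ → ℝ → W} {a : ℝ → ℝ} {t₀ a' : ℝ} {w : W}
    (hXc : ContinuousAt X (z t₀ (a t₀)))
    (hz : ∀ ρ > (0 : ℝ), ∃ ε > (0 : ℝ), ∀ᶠ t in 𝓝 t₀, ∀ s ∈ Ioo (a t₀ - ε) (a t₀ + ε),
      z t s ∈ ball (z t₀ (a t₀)) ρ ∧ HasDerivAt (z t) (X (z t s)) s)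
    (ha : HasDerivAt a a' t₀) (h1 : HasDerivAt (fun t => z t (a t₀)) w t₀) :
    HasDerivAt (fun t => z t (a t)) (w + a' • X (z t₀ (a t₀))) t₀ := by
  set s₀ := a t₀ with hs₀
  set zs := z t₀ s₀ with hzs
  have hac := ha.continuousAt
  have hA : (fun t => a t - s₀) =O[𝓝 t₀] fun t => t - t₀ := ha.isBigO_sub
  have hfirst : (fun t => z t (a t) - z t s₀ - (a t - s₀) • X zs) =o[𝓝 t₀] fun t => t - t₀ := by
    refine Asymptotics.IsLittleO.trans_isBigO ?_ hA
    rw [Asymptotics.isLittleO_iff]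
    intro c hc
    have h2 : ∀ᶠ y in 𝓝 zs, ‖X y - X zs‖ ≤ c := by
      have h3 := hXc.eventually (closedBall_mem_nhds (X zs) hc)
      filter_upwards [h3] with y hy
      exact mem_closedBall_iff_norm.mp hy
    obtain ⟨ρ, hρ, hρb⟩ := Metric.eventually_nhds_iff_ball.mp h2
    obtain ⟨ε, hε, hev⟩ := hz ρ hρ
    have hat : ∀ᶠ t in 𝓝 t₀, a t ∈ Ioo (s₀ - ε) (s₀ + ε) :=
      hac.eventually (Ioo_mem_nhds (by linarith) (by linarith))
    filter_upwards [hev, hat] with t ht hta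
    have hs0mem : s₀ ∈ Ioo (s₀ - ε) (s₀ + ε) := ⟨by linarith, by linarith⟩
    have key := Convex.norm_image_sub_le_of_norm_hasDerivWithin_le (𝕜 := ℝ)
      (f := fun s => z t s - s • X zs) (f' := fun s => X (z t s) - X zs) (C := c)
      (s := Ioo (s₀ - ε) (s₀ + ε)) (x := s₀) (y := a t) ?_ ?_ (convex_Ioo _ _) hs0mem hta
    · have e : z t (a t) - z t s₀ - (a t - s₀) • X zs =
          z t (a t) - a t • X zs - (z t s₀ - s₀ • X zs) := by
        rw [sub_smul]; abel
      rw [e]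
      exact key
    · intro s hs
      have h4 := ((ht s hs).2.sub ((hasDerivAt_id s).smul_const (X zs)))
      rw [one_smul] at h4
      exact h4.hasDerivWithinAt
    · intro s hs
      exact hρb _ (ht s hs).1
  rw [hasDerivAt_iff_isLittleO] at h1 ha ⊢
  have h2 : (fun t => (a t - s₀ - (t - t₀) • a') • X zs) =o[𝓝 t₀] fun t => t - t₀ := by
    have := ha.smul_isBigO (Asymptotics.isBigO_refl (fun _ : ℝ => X zs) (𝓝 t₀))
    refine this.trans_isBigO ?_
    refine Asymptotics.IsBigO.of_bound ‖X zs‖ (Eventually.of_forall fun t => ?_)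
    rw [norm_smul, mul_comm]
  have h3 := (hfirst.add h2).add h1
  refine h3.congr_left fun t => ?_
  simp only [smul_eq_mul, smul_add, sub_smul, smul_smul]
  abel

end Pool.Agent.Lib.PRSym
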